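import Pool.Agent.H79.PRM.Rank
import Pool.Agent.H79.PRK.All1
import Pool.Agent.H95.MQ.All
import Pool.Agent.H23.PRK.AAVK
import Pool.Agent.H49.PRK.MWK
import Pool.Agent.H70.PRK.EMBK
import Pool.Agent.H62.AVR.PLL
import Pool.Agent.H2.AVR.RNK
import Pool.Agent.H25.AVR.DSC
import Pool.Agent.H46.AVR.HOM
import Pool.Agent.H85.AVR.KER

/-!
# PRM: the intrinsic form of the main theorem
-/

set_option autoImplicit false

namespace Pool.PRM

open Polynomial IsDedekindDomain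

/-- Mordell-Weil. -/
theorem mw_thm : ∀ (R : Type) [CommRing R] [IsDedekindDomain R] (K : Type) [Field K] [Algebra R K]
    [IsFractionRing R K] (O : ValuationSubring K) (π : K), Pool.T1.GR R O π →
    ∀ f : K[X], f.Monic → f.natDegree = 3 → Irreducible f → f.Separable →
    (Pool.PRK.SelG f).Finite → Pool.PRK.MW f :=
  Pool.PRK.mwk Pool.PRK.aavk Pool.PRK.embk Pool.T1.All.h_grd
    (Pool.AVR.hom_thm Pool.AVR.KER_thm) Pool.AVR.KER_thm Pool.AVR.pll_thm Pool.AVR.rnk_thm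
    Pool.AVR.DSC_thm

/-- Scaling of the roots is a substitution. -/
theorem scale_eq {K : Type} [Field K] (p : K[X]) (d : K) (hd : d ≠ 0) :
    p.scaleRoots d = C (d ^ p.natDegree) * p.comp (C d⁻¹ * X) := by
  ext i
  rw [coeff_scaleRoots, coeff_C_mul, comp_C_mul_X_coeff]
  rcases le_or_gt i p.natDegree with hi | hi
  · have h1 : d ^ p.natDegree = d ^ (p.natDegree - i) * d ^ i := by
      rw [← pow_add, Nat.sub_add_cancel hi]
    rw [h1, inv_pow]
    have h2 : d ^ i ≠ 0 := pow_ne_zero _ hd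
    field_simp
  · rw [coeff_eq_zero_of_natDegree_lt hi]
    simp

/-- Scaling of the roots preserves separability. -/
theorem sep_scale {K : Type} [Field K] (p : K[X]) (d : K) (hd : d ≠ 0)
    (hp : p.Separable) : (p.scaleRoots d).Separable := by
  rw [scale_eq p d hd]
  obtain ⟨u, v, huv⟩ := hp
  have h1 := congrArg (fun q : K[X] => q.comp (C d⁻¹ * X)) huv
  simp only [add_comp, mul_comp, one_comp] at h1
  have h2 : derivative (C (d ^ p.natDegree) * p.comp (C d⁻¹ * X)) =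
      C (d ^ p.natDegree) * (C d⁻¹ * (derivative p).comp (C d⁻¹ * X)) := by
    rw [derivative_C_mul, derivative_comp]
    congr 2
    simp
  have h3 : (C (d ^ p.natDegree) : K[X]) * C ((d ^ p.natDegree)⁻¹) = 1 := by
    rw [← C_mul, mul_inv_cancel₀ (pow_ne_zero _ hd), C_1]
  have h4 : (C d : K[X]) * C d⁻¹ = 1 := by
    rw [← C_mul, mul_inv_cancel₀ hd, C_1]
  refine ⟨u.comp (C d⁻¹ * X) * C ((d ^ p.natDegree)⁻¹),
    v.comp (C d⁻¹ * X) * C ((d ^ p.natDegree)⁻¹) * C d, ?_⟩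
  rw [h2]
  linear_combination (u.comp (C d⁻¹ * X) * p.comp (C d⁻¹ * X) +
    v.comp (C d⁻¹ * X) * (derivative p).comp (C d⁻¹ * X) * (C d * C d⁻¹)) * h3 +
    v.comp (C d⁻¹ * X) * (derivative p).comp (C d⁻¹ * X) * h4 + h1

section Defs

variable {K : Type} [Field K] {v : ValuationSubring K}

attribute [local instance] alg

theorem at_of_compP {P : Pl v} {ϖ : Reg v} {L : Type} [Field L] {O : ValuationSubring L}
    {ι : K →+* L} (h : Pool.T1.CompP P ϖ L O ι) : Cpl K L O ι ∧ At P O ι := by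
  refine ⟨(cpl_iff K L O ι).1 h.cpl, fun a => ?_⟩
  have h1 : ι (a : K) ∈ O := h.int a
  refine ⟨h1, ?_⟩
  have h2 : ι (a : K) / ι (ϖ : K) ∈ O ↔ a ∈ P.asIdeal := h.mem a
  rw [← h2]
  by_cases h0 : ι (a : K) = 0
  · rw [h0, zero_div, map_zero]
    exact ⟨fun _ => zero_lt_one, fun _ => O.zero_mem⟩
  · have h3 := h.loc.unif (ι (a : K)) h1 h0
    have h4 : ι (a : K) / ι (ϖ : K) ∈ O ↔ (ι (a : K))⁻¹ ∉ O := h3.symm
    rw [h4, ← O.valuation_le_one_iff, map_inv₀, not_le]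
    constructor
    · intro h5
      have h6 : O.valuation (ι (a : K)) ≠ 0 := (Valuation.ne_zero_iff _).2 h0
      exact (one_lt_inv₀ (zero_lt_iff.2 h6)).1 h5
    · intro h5
      have h6 : O.valuation (ι (a : K)) ≠ 0 := (Valuation.ne_zero_iff _).2 h0
      exact (one_lt_inv₀ (zero_lt_iff.2 h6)).2 h5

theorem selTwo_of {P : Pl v} {f : K[X]} (h : Pool.PRK.SelTwo (K := K) P f) : SelTwo P f := by
  obtain ⟨h1, h2⟩ := h
  rw [sel_eq] at h1
  refine ⟨h1, fun u p hu hp hs => ?_⟩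
  have hu' : (QuotientGroup.mk u : (AdjoinRoot f)ˣ ⧸ Pool.PRK.SqG f) ∈ Pool.PRK.SelG f := by
    rw [sel_eq]
    exact hu
  obtain ⟨ϖ, L, iL, O, ι, h3, h4⟩ := h2 u p hu' hp hs
  obtain ⟨h5, h6⟩ := at_of_compP h3
  exact ⟨L, iL, O, ι, h5, h6, h4⟩

theorem mem_Lm (d : Reg v) (π : K) (E : ℕ) :
    d ∈ Pool.T1.Lm (Reg v) v π (E : ℤ) ↔ (d : K) * π ^ E ∈ v := by
  change (d : K) * π ^ (E : ℤ) ∈ v ↔ _
  rw [zpow_natCast]

theorem prod_succ {m : ℕ} (t : Fin (m + 1) → K) (I : Finset (Fin (m + 1))) :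
    ∏ i ∈ I, t i = (if 0 ∈ I then t 0 else 1) *
      ∏ j ∈ Finset.univ.filter (fun j : Fin m => j.succ ∈ I), t j.succ := by
  classical
  have h1 : ∏ i ∈ I, t i = ∏ i : Fin (m + 1), if i ∈ I then t i else 1 := by
    rw [Finset.prod_ite_mem, Finset.univ_inter]
  rw [h1, Fin.prod_univ_succ]
  congr 1
  rw [Finset.prod_filter]

theorem rich_of [IsDedekindDomain (Reg v)] [IsFractionRing (Reg v) K] {m : ℕ}
    {D : Data v} (hD : Disjoint D.T D.T') {P : Pl v} {d : Pl v → Reg v} (hd : Tws D d)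
    (hP : P ∈ D.T) {q : K[X]} (h : Pool.MQ.CubQ m D.T P d q) : Rich m D P q := by
  obtain ⟨a, b, hab, -, -, -, hind, hall⟩ := h
  have h0 : ∀ Q ∈ D.T, algebraMap (Reg v) K (d Q) ≠ 0 := by
    intro Q hQ h0
    rw [FaithfulSMul.algebraMap_eq_zero_iff] at h0
    exact (hd Q hQ).1 h0
  have hQ' : ∀ (Q : Pl v), Q ∈ D.T → ∀ R : Pl v, R ≠ Q → R ∉ D.T' → d Q ∉ R.asIdeal :=
    fun Q hQ R hR hR' => (hd Q hQ).2.2 R hR hR'
  have hu : ∀ (i : Fin m) (R : Pl v), R ≠ a i → R ≠ b i → R ∉ D.T' →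
      OrdZ R (Pool.MQ.tup K d P a b i.succ) := by
    intro i R h1 h2 h3
    refine ⟨d (b i), d (a i), hQ' _ (hab i).2.1 R h2 h3, hQ' _ (hab i).1.1 R h1 h3, ?_⟩
    rw [Pool.MQ.tup, Fin.cons_succ]
    exact div_mul_cancel₀ _ (h0 _ (hab i).1.1)
  refine ⟨Pool.MQ.tup K d P a b, ?_, ?_, ?_, hind, fun I => ?_⟩
  · intro i
    refine Fin.cases ?_ (fun j => ?_) i
    · rw [Pool.MQ.tup, Fin.cons_zero]
      exact inv_ne_zero (h0 P hP)
    · rw [Pool.MQ.tup, Fin.cons_succ]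
      exact div_ne_zero (h0 _ (hab j).2.1) (h0 _ (hab j).1.1)
  · intro i R hR hR'
    refine Fin.cases ?_ (fun j => ?_) i
    · refine ⟨1, d P, fun h => R.isPrime.ne_top ((Ideal.eq_top_iff_one _).2 h),
        hQ' P hP R (fun h => hR (h ▸ hP)) hR', ?_⟩
      rw [Pool.MQ.tup, Fin.cons_zero]
      exact inv_mul_cancel₀ (h0 P hP)
    · exact hu j R (fun h => hR (h ▸ (hab j).1.1)) (fun h => hR (h ▸ (hab j).2.1)) hR'
  · intro i hi
    obtain ⟨j, rfl⟩ := Fin.exists_succ_eq.2 hi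
    exact hu j P (fun h => (hab j).1.2 h.symm) (fun h => (hab j).2.2 h.symm)
      (Finset.disjoint_left.1 hD hP)
  · obtain ⟨h1, h2⟩ := hall (Finset.univ.filter (fun j : Fin m => j.succ ∈ I))
    have hp := prod_succ (Pool.MQ.tup K d P a b) I
    constructor
    · intro hI
      rw [if_pos hI] at hp
      rw [hp, ← sel_eq]
      exact h2
    · intro hI
      rw [if_neg hI, one_mul] at hp
      rw [hp]
      exact selTwo_of h1

/-- Elements of the set of twists. -/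
theorem tw_ok [IsDedekindDomain (Reg v)] [IsFractionRing (Reg v) K] {π : K}
    (H : Pool.T1.GR (Reg v) v π) {g : ℕ} (hg : 1 ≤ g) {D : Data v} (hD : D.Ok g) {h : ℕ}
    {f : (Reg v)[X]} (hf : f ∈ Fam π g D h) {d : Reg v} (hd : d ≠ 0) :
    Irreducible (tw d f) := by
  rw [← fam_eq] at hf
  have h1 := (Pool.T1.irrk (Reg v) K v π H g (toD D) h hg hD f hf.1).1
  exact Pool.T1.irr_scale hd hf.1.1.1 h1

theorem mw_of {f : K[X]} (h : Pool.PRK.MW f) : MW f := by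
  intro _
  obtain ⟨h1, h2⟩ := h
  rw [sel_eq] at h2
  exact ⟨h1, h2⟩

open Classical in
/-- The main theorem from the package. -/
theorem main_of_pkg {π : K} {g : ℕ} (hg : 1 ≤ g) (H : Pkg v π g (Reg v)) : Main v π g := by
  have hded : IsDedekindDomain (Reg v) := H.ded
  have hfr : IsFractionRing (Reg v) K := H.fr
  have hGR : Pool.T1.GR (Reg v) v π := H.gr
  obtain ⟨A1, hA1⟩ := H.law
  obtain ⟨A2, hA2⟩ := H.law2
  have hMW : ∀ (D : Data v) (h E : ℕ) (f : (Reg v)[X]) (d : Reg v), g = 1 → D.Ok g →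
      f ∈ Fam π g D h → d ≠ 0 → tw d f ∈ HypV v g (h + E) → ∀ t : K, t ≠ 0 →
      MW ((tw d f).scaleRoots t) := by
    intro D h E f d hg1 hD hf hd hH t ht hfin
    have h1 : ((tw d f).scaleRoots t).natDegree = 3 := by
      rw [natDegree_scaleRoots, hH.2.1, hg1]
    have h2 := tw_ok hGR hg hD hf hd
    exact mw_of (H.mw _ ((monic_scaleRoots_iff t).2 hH.1) h1 (Pool.TOW.UD.irr_scaleRoots hH.1 ht h2)
      (sep_scale _ t ht hH.2.2.2) (by rw [sel_eq]; exact hfin)) hfin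
  refine ⟨A1 ∪ A2, fun T' hT' m ε hε => ?_⟩
  obtain ⟨k1, hk1⟩ := hA1 T' (Finset.subset_union_left.trans hT') ε hε
  obtain ⟨k2, hk2⟩ := hA2 T' (Finset.subset_union_right.trans hT') m ε hε
  have hE : ∀ (d : Pl v → Reg v) (D : Data v) (E : ℕ),
      (∀ S ⊆ D.T, Pool.MQ.pr d S ∈ Pool.T1.Lm (Reg v) v π (E : ℤ)) ↔
        ∀ S ⊆ D.T, (pr d S : K) * π ^ E ∈ v := by
    intro d D E
    constructor
    · intro h S hS
      exact (mem_Lm _ _ _).1 (h S hS)
    · intro h S hS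
      exact (mem_Lm _ _ _).2 (h S hS)
  refine ⟨max k1 k2, fun k hk => ?_⟩
  rcases Nat.even_or_odd k with hev | hodd
  · obtain ⟨b, ⟨D0, hD0⟩, hb⟩ := hk2 k hev (le_trans (le_max_right _ _) hk)
    refine ⟨b, ⟨ofD D0, hD0⟩, fun D hD hDT hDk hDb => ?_⟩
    obtain ⟨⟨d0, E0, hd0, hE0⟩, hall⟩ := hb (toD D) hD hDT hDk hDb
    refine ⟨⟨d0, E0, (dp_iff hD.1 d0).1 hd0, (hE d0 D E0).1 hE0⟩, fun d E hd hdE =>
      ⟨fun h => (Nat.not_even_iff_odd.2 h hev).elim, fun _ P hP => ?_⟩⟩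
    obtain ⟨c, hc, h0, hh⟩ := hall P hP d ((dp_iff hD.1 d).2 hd) E ((hE d D E).2 hdE)
    refine ⟨c, hc, h0, fun h hle => ?_⟩
    obtain ⟨h1, h3⟩ := hh h hle
    have hpos : ∀ (B : Set (Reg v)[X]) (Hs : Set K[X]), B ⊆ Fam π g D h →
        Hs ⊆ HypV v g (h + E) →
        Pool.MQ.PosQ m D.T P d ε c (Pool.PRK.ZI K (toD D) P (pr d) B) Hs →
        PosI m g D P ε c (TwI D P d B) Hs := by
      rintro B Hs hB hHs ⟨a1, a2, a3, a4, a5⟩
      rw [zi_eq] at a1 a4 a5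
      refine ⟨⟨a1, a2, a3, a4⟩, a5.trans ?_, ?_⟩
      · norm_cast
        exact Set.ncard_le_ncard
          (fun q hq => ⟨hq.1, rich_of hD.1 hd hP hq.2⟩)
          ((a2.subset a1).subset fun q hq => hq.1)
      · rintro hg1 q ⟨f, hf, S, hS, rfl⟩ t ht
        have hS' : S ⊆ D.T.erase P := by
          unfold Sl at hS
          exact Finset.mem_powerset.1 (Finset.mem_filter.1 hS).1
        have hSi : insert P S ⊆ D.T :=
          Finset.insert_subset hP (hS'.trans (Finset.erase_subset _ _))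
        exact hMW D h E f (pr d (insert P S)) hg1 hD (hB hf)
          (Finset.prod_ne_zero_iff.2 fun Q hQ => (hd Q (hSi hQ)).1)
          (hHs (a1 ⟨f, hf, S, hS, rfl⟩)) t ht
    rw [fam_eq] at h1 h3
    exact ⟨hpos _ _ subset_rfl subset_rfl h1, fun hN hT =>
      hpos _ _ (fun f hf => hf.1) (fun f hf => hf.1) (h3 hN hT)⟩
  · obtain ⟨b, ⟨D0, hD0⟩, hb⟩ := hk1 k hodd (le_trans (le_max_left _ _) hk)
    refine ⟨b, ⟨ofD D0, hD0⟩, fun D hD hDT hDk hDb => ?_⟩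
    obtain ⟨hdS, hall⟩ := hb (toD D) hD hDT hDk hDb
    obtain ⟨d0, E0, hd0, hE0⟩ := Pool.MQ.exists_dE hGR (toD D) hdS
    refine ⟨⟨d0, E0, (dp_iff hD.1 d0).1 hd0, (hE d0 D E0).1 hE0⟩, fun d E hd hdE =>
      ⟨fun _ => ?_, fun h => (Nat.not_even_iff_odd.2 hodd h).elim⟩⟩
    obtain ⟨c, hc, h0, hh⟩ := hall (pr d) (Pool.MQ.tws_pr ((dp_iff hD.1 d).2 hd)) E
      ((hE d D E).2 hdE)
    refine ⟨c, hc, h0, fun h hle => ?_⟩
    obtain ⟨h1, h2, h3⟩ := hh h hle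
    have hpos : ∀ (B : Set (Reg v)[X]) (Hs : Set K[X]), B ⊆ Fam π g D h →
        Hs ⊆ HypV v g (h + E) → Pool.PRK.PosL g ε c (Pool.PRK.ZA K (toD D) (pr d) B) Hs →
        PosL g ε c (Tw D d B) Hs := by
      rintro B Hs hB hHs ⟨a1, a2, a3, a4, a5, -⟩
      rw [za_eq] at a1 a4 a5
      rw [lawZ_iff] at a5
      refine ⟨⟨a1, a2, a3, a4⟩, a5, fun hg1 => rankZ ?_ a5 (a2.subset a1)⟩
      rintro q ⟨f, hf, S, hS, rfl⟩
      have hS' : S ⊆ D.T := by
        unfold Sl at hS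
        exact Finset.mem_powerset.1 (Finset.mem_filter.1 hS).1
      have h5 := hMW D h E f (pr d S) hg1 hD (hB hf)
        (Finset.prod_ne_zero_iff.2 fun Q hQ => (hd Q (hS' hQ)).1)
        (hHs (a1 ⟨f, hf, S, hS, rfl⟩)) 1 one_ne_zero
      rwa [scaleRoots_one] at h5
    rw [fam_eq] at h1 h2 h3
    refine ⟨hpos _ _ subset_rfl subset_rfl h1, ?_, ?_⟩
    · simp only [lawT_iff] at h2
      exact h2
    · intro hN hT
      exact hpos _ _ (fun f hf => hf.1) (fun f hf => hf.1) (h3 hN hT)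

end Defs

/-- The main theorem, intrinsic form. -/
theorem main_thm (F : Type) [Field F] [Finite F] (h2 : (2 : F) ≠ 0) (K : Type) [Field K]
    [Algebra F K] [Algebra.EssFiniteType F K] (htr : Algebra.trdeg F K = 1)
    (v : ValuationSubring K) (hv : v ≠ ⊤) (π : K) (hπ : Unif v π) (g : ℕ) (hg : 1 ≤ g) :
    Main v π g :=
  main_of_pkg hg (pkg Pool.PRK.All.main (Pool.MQ.main_mq Pool.PRK.All.main1) mw_thm h2 htr v hv π
    hπ g hg)

end Pool.PRM
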