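import Pool.Agent.H79.PRM.Defs
import Pool.Agent.H79.PRK.S9
import Pool.Agent.H95.MQ.Man
import Pool.Agent.H44.T1.INTR
import Pool.Agent.H29.T1.All

/-!
# PRM: from the statement for `RR F K` to the intrinsic statement
-/

set_option autoImplicit false

namespace Pool.PRM

open Polynomial IsDedekindDomain

section Sub

variable {K : Type} [Field K]

/-- `K` as an algebra over a subring. -/
@[reducible] def alg (S : Subring K) : Algebra S K := S.subtype.toAlgebra

/-- Everything which is needed, for a subring. -/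
structure Pkg (v : ValuationSubring K) (π : K) (g : ℕ) (S : Subring K) : Prop where
  ded : IsDedekindDomain S
  fr : @IsFractionRing S _ K _ (alg S)
  gr : @Pool.T1.GR S _ K _ (alg S) _ v π
  law : @Pool.PRK.LawR S _ _ K _ (alg S) v π g (HypV v g)
  law2 : @Pool.MQ.LawR2 S _ ded K _ (alg S) v π g (HypV v g)
  mw : ∀ f : K[X], f.Monic → f.natDegree = 3 → Irreducible f → f.Separable →
    (Pool.PRK.SelG f).Finite → Pool.PRK.MW f

end Sub

/-- The ring of T1 is the ring of the functions which are regular outside `v`. -/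
theorem reg_eq {F : Type} [Field F] [Finite F] (h2 : (2 : F) ≠ 0) {K : Type} [Field K]
    [Algebra (RatFunc F) K] [FiniteDimensional (RatFunc F) K]
    [Algebra.IsSeparable (RatFunc F) K] {v : ValuationSubring K}
    (hO : Pool.T1.OnePole F v) {π : K} (hπ : Pool.T1.Unif v π) :
    Pool.T1.RS F K = Reg v := by
  obtain ⟨-, hall⟩ := Pool.T1.gri F h2 K v hO
  obtain ⟨H, hP⟩ := hall π hπ
  obtain ⟨-, -, -, -, hm⟩ := Pool.T1.gra (Pool.T1.RR F K) K v π H
  ext a
  constructor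
  · intro ha w hw
    obtain ⟨m, hm'⟩ := hm ⟨a, ha⟩
    have h1 : Pool.T1.Pole F v m a := (hP m a).2 ⟨⟨a, ha⟩, hm', rfl⟩
    refine h1.1 w ?_
    by_contra h3
    exact hw (hO.2 w h3)
  · intro ha
    obtain ⟨hπ0, hπv, hπi, hπd⟩ := hπ
    by_cases ha0 : a = 0
    · rw [ha0]
      exact zero_mem _
    obtain ⟨n, hn1, hn2⟩ := H.val a ha0
    have key : Pool.T1.Pole F v (-n).toNat a := by
      refine ⟨fun w hw => ha w ?_, ?_⟩
      · rintro rfl
        exact hO.1 hw
      · intro ϖ h1 h3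
        have h4 : ϖ / π ∈ v := hπd ϖ h1 h3
        have h5 : a * ϖ ^ (-n).toNat =
            (a / π ^ n) * (π ^ (n + (-n).toNat)) * (ϖ / π) ^ (-n).toNat := by
          rw [div_pow, zpow_add₀ hπ0, zpow_natCast]
          have h6 : π ^ n ≠ 0 := zpow_ne_zero _ hπ0
          have h7 : π ^ (-n).toNat ≠ 0 := pow_ne_zero _ hπ0
          field_simp
        rw [h5]
        have h8 : (0 : ℤ) ≤ n + (-n).toNat := by
          have := Int.self_le_toNat (-n)
          omega
        obtain ⟨k, hk⟩ := Int.eq_ofNat_of_zero_le h8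
        rw [hk]
        refine mul_mem (mul_mem hn1 ?_) (pow_mem h4 _)
        change π ^ ((k : ℕ) : ℤ) ∈ v
        rw [zpow_natCast]
        exact pow_mem hπv k
    obtain ⟨r, -, hr⟩ := (hP _ _).1 key
    rw [← hr]
    exact r.2

/-- The package for the ring `Reg v`. -/
theorem pkg (hmain : Pool.PRK.MainPRK)
    (hmain2 : ∀ (F : Type) [Field F] [Finite F], (2 : F) ≠ 0 → ∀ (K : Type) [Field K]
      [Algebra (RatFunc F) K] [FiniteDimensional (RatFunc F) K]
      [Algebra.IsSeparable (RatFunc F) K] (O : ValuationSubring K), Pool.T1.OnePole F O →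
      ∀ π : K, Pool.T1.Unif O π → ∀ g : ℕ, 1 ≤ g →
      Pool.MQ.LawR2 (Pool.T1.RR F K) O π g (Pool.T1.HypK F O g))
    (hmw : ∀ (R : Type) [CommRing R] [IsDedekindDomain R] (K : Type) [Field K] [Algebra R K]
      [IsFractionRing R K] (O : ValuationSubring K) (π : K), Pool.T1.GR R O π →
      ∀ f : K[X], f.Monic → f.natDegree = 3 → Irreducible f → f.Separable →
      (Pool.PRK.SelG f).Finite → Pool.PRK.MW f) {F K : Type} [Field F] [Finite F] (h2 : (2 : F) ≠ 0)
    [Field K] [Algebra F K] [Algebra.EssFiniteType F K] (htr : Algebra.trdeg F K = 1)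
    (v : ValuationSubring K) (hv : v ≠ ⊤) (π : K) (hπ : Unif v π) (g : ℕ) (hg : 1 ≤ g) :
    Pkg v π g (Reg v) := by
  obtain ⟨a, hfin, hsep, hone, hpole⟩ := Pool.T44.one_pole (F := F) htr v hv
  letI := a
  have h1 : Pkg v π g (Pool.T1.RS F K) := by
    have h4 : Pool.T1.HypK F v g = HypV v g := by
      funext h
      unfold Pool.T1.HypK HypV
      simp only [hpole]
      rfl
    refine ⟨?_, ?_, ?_, ?_, ?_, ?_⟩
    · exact (inferInstance : IsDedekindDomain (Pool.T1.RR F K))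
    · exact (inferInstance : IsFractionRing (Pool.T1.RR F K) K)
    · exact ((Pool.T1.gri F h2 K v hone).2 π hπ).1
    · have h3 := hmain F h2 K v hone π hπ g hg
      rw [h4] at h3
      exact h3
    · have h3 := hmain2 F h2 K v hone π hπ g hg
      rw [h4] at h3
      exact h3
    · exact hmw (Pool.T1.RR F K) K v π ((Pool.T1.gri F h2 K v hone).2 π hπ).1
  rw [reg_eq h2 hone hπ] at h1
  exact h1

/-! ### The definitions -/

theorem cpl_iff (K : Type) [Field K] (L : Type) [Field L] (O : ValuationSubring L)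
    (ι : K →+* L) : Pool.TOW.Cpl K L O ι ↔ Cpl K L O ι :=
  ⟨fun h => ⟨h.1, h.2, h.3, h.4⟩, fun h => ⟨h.1, h.2, h.3, h.4⟩⟩

theorem sel_eq {K : Type} [Field K] (f : K[X]) : Pool.PRK.SelG f = Sel f := by
  unfold Pool.PRK.SelG Sel
  simp only [cpl_iff]
  rfl

theorem pr_eq (r : ℕ) : Pool.PRL.PR r = PR r := rfl

theorem lawZ_iff {K : Type} [Field K] (ε : ℝ) (Z : Set K[X]) :
    Pool.PRK.LawZ ε Z ↔ LawZ ε Z := by
  unfold Pool.PRK.LawZ LawZ
  simp only [sel_eq, pr_eq]

section Defs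

variable {K : Type} [Field K] {v : ValuationSubring K}

attribute [local instance] alg

/-- The data. -/
def toD (D : Data v) : Pool.T1.Dat (Reg v) v := ⟨D.T, D.T', D.c, D.γ, D.ρ, D.top⟩

/-- The data. -/
def ofD (D : Pool.T1.Dat (Reg v) v) : Data v := ⟨D.T, D.T', D.c, D.γ, D.ρ, D.top⟩

theorem ok_iff (D : Data v) (g : ℕ) : (toD D).Ok g ↔ D.Ok g := Iff.rfl

theorem tr_iff (D : Data v) (g : ℕ) : Pool.PRK.Tr0 (toD D) g ↔ D.Tr0 g := Iff.rfl

theorem dp_iff [IsDedekindDomain (Reg v)] {D : Data v} (hD : Disjoint D.T D.T') (d : Pl v → Reg v) :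
    Pool.MQ.DP D.T D.T' d ↔ Tws D d := by
  constructor
  · intro h P hP
    obtain ⟨h1, h2, h3, h4⟩ := h P hP
    refine ⟨h1, h2 P (Finset.mem_singleton_self P), fun Q hQ hQ' => ?_⟩
    by_cases hQT : Q ∈ D.T
    · exact h3 Q hQT fun h => hQ (Finset.mem_singleton.1 h)
    · exact h4 Q hQT hQ'
  · intro h P hP
    obtain ⟨h1, h2, h3⟩ := h P hP
    refine ⟨h1, ?_, ?_, ?_⟩
    · intro Q hQ
      rw [Finset.mem_singleton.1 hQ]
      exact h2
    · intro Q hQ hQP
      exact h3 Q (fun h => hQP (Finset.mem_singleton.2 h)) (Finset.disjoint_left.1 hD hQ)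
    · intro Q hQ hQ'
      exact h3 Q (fun h => hQ (h ▸ hP)) hQ'

theorem sl_eq (T : Finset (Pl v)) : Pool.PRK.Sl T = Sl T := by
  ext S
  unfold Pool.PRK.Sl Sl
  simp only [Finset.mem_filter]

theorem fam_eq (π : K) (g : ℕ) (D : Data v) (h : ℕ) :
    Pool.PRK.FamS π g (toD D) h = Fam π g D h := by
  ext f
  constructor
  · rintro ⟨⟨⟨h1, h2, h3⟩, h4, h5, h6⟩, h7⟩
    refine ⟨⟨⟨⟨h1, h2, ?_⟩, h4⟩, h5, h6⟩, h7⟩
    intro i hi
    have := h3 i hi
    have h8 : (f.coeff (2 * g + 1 - i) : K) * π ^ (((i * h : ℕ)) : ℤ) ∈ v := this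
    rwa [zpow_natCast] at h8
  · rintro ⟨⟨⟨⟨h1, h2, h3⟩, h4⟩, h5, h6⟩, h7⟩
    refine ⟨⟨⟨h1, h2, ?_⟩, h4, h5, h6⟩, h7⟩
    intro i hi
    change (f.coeff (2 * g + 1 - i) : K) * π ^ (((i * h : ℕ)) : ℤ) ∈ v
    rw [zpow_natCast]
    exact h3 i hi

theorem za_eq (D : Data v) (d : Pl v → Reg v) (A : Set (Reg v)[X]) :
    Pool.PRK.ZA K (toD D) (pr d) A = Tw D d A := by
  unfold Pool.PRK.ZA Tw
  simp only [sl_eq]
  rfl

theorem lawT_iff (ε : ℝ) (D : Data v) (d : Pl v → Reg v) (f : (Reg v)[X]) :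
    Pool.PRK.LawT K ε (toD D) (pr d) f ↔ LawT ε D d f := by
  unfold Pool.PRK.LawT LawT
  simp only [sel_eq, pr_eq, sl_eq]
  rfl

theorem zi_eq (D : Data v) (P : Pl v) (d : Pl v → Reg v) (A : Set (Reg v)[X]) :
    Pool.PRK.ZI K (toD D) P (pr d) A = TwI D P d A := by
  unfold Pool.PRK.ZI TwI
  simp only [sl_eq]
  rfl

end Defs

end Pool.PRM
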