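import Mathlib

/-!
# The Poonen-Rains law for 2-Selmer groups over a global function field: definitions

`K` is a function field in one variable over a finite field of odd order and `v` is a place of `K`:
a valuation ring of `K` which is not `K`.  `Reg v` is the ring of the elements of `K` which are regular
at all places different from `v`; it is a Dedekind domain, and its maximal ideals `P` are the places
different from `v`.  `π` is a uniformizer at `v`.
-/

set_option autoImplicit false

namespace Pool.PRM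

open Polynomial IsDedekindDomain

/-! ### The 2-Selmer group -/

section Selmer

/-- `L`, with the valuation ring `O`, is a completion of `K`: it is a complete discretely valued
field with finite residue field and `K` is dense in it. -/
structure Cpl (K : Type) [Field K] (L : Type) [Field L] (O : ValuationSubring L)
    (ι : K →+* L) : Prop where
  dvr : IsDiscreteValuationRing O
  complete : IsAdicComplete (IsLocalRing.maximalIdeal O) O
  fin : Finite (IsLocalRing.ResidueField O)
  dense : ∀ z a : L, a ≠ 0 → ∃ x : K, (z - ι x) / a ∈ O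

/-- Over the field `L` the class of `p` modulo squares is the class of `(-1)^(deg u) u` for a monic
`u`, prime to `f`, such that `f` is a square modulo `u`: it is the image of the class of the divisor
`u = 0, y = w` of the curve `y² = f(x)` under the map `x - X`. -/
def LocSol {L : Type} [Field L] (f p : L[X]) : Prop :=
  ∃ u w s : L[X], u.Monic ∧ IsCoprime u f ∧ u ∣ w ^ 2 - f ∧
    f ∣ (-1) ^ u.natDegree * u - p * s ^ 2

variable {K : Type} [Field K]

/-- The squares of the units of `K[X]/(f)`. -/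
noncomputable abbrev Sq (f : K[X]) : Subgroup (AdjoinRoot f)ˣ :=
  (powMonoidHom 2 : (AdjoinRoot f)ˣ →* _).range

/-- The 2-Selmer group over `K` of the Jacobian of the curve `y² = f(x)`, `f` monic, separable and of
odd degree, in its classical description: the classes modulo squares of the units of `K[X]/(f)`
whose norm is a square and which are, over every completion of `K`, classes of divisors. -/
def Sel (f : K[X]) : Set ((AdjoinRoot f)ˣ ⧸ Sq f) :=
  {ξ | ∃ (u : (AdjoinRoot f)ˣ) (p : K[X]), (QuotientGroup.mk u : (AdjoinRoot f)ˣ ⧸ Sq f) = ξ ∧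
    AdjoinRoot.mk f p = (u : AdjoinRoot f) ∧ IsSquare (Algebra.norm K (AdjoinRoot.mk f p)) ∧
    ∀ (L : Type) [Field L] (O : ValuationSubring L) (ι : K →+* L), Cpl K L O ι →
      LocSol (f.map ι) (p.map ι)}

/-- The group of the rational points of the elliptic curve `y² = f(x)`, `f` monic of degree
three. -/
abbrev Pts (f : K[X]) : Type :=
  (⟨0, f.coeff 2, 0, f.coeff 1, f.coeff 0⟩ : WeierstrassCurve K).toAffine.Point

/-- The Poonen-Rains law for the prime `2`: `∏ (1 + 2^(-j))⁻¹ (j ≥ 0)` times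
`∏ 2 / (2^j - 1) (1 ≤ j ≤ r)`. -/
noncomputable def PR (r : ℕ) : ℝ :=
  (∏' j : ℕ, (1 + (1 / 2 : ℝ) ^ j))⁻¹ * ∏ j ∈ Finset.range r, 2 / ((2 : ℝ) ^ (j + 1) - 1)

/-- The distribution of the 2-Selmer groups of the elements of the finite set `Z` is the law of
Poonen and Rains up to `ε`; the 2-Selmer rank is even for one half of them, up to `ε`. -/
def LawZ (ε : ℝ) (Z : Set K[X]) : Prop :=
  (∀ B : ℕ, ∑ r ∈ Finset.range B,
    |({f | f ∈ Z ∧ (Sel f).ncard = 2 ^ r}.ncard : ℝ) / Z.ncard - PR r| ≤ ε) ∧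
  |({f | f ∈ Z ∧ ∃ r : ℕ, Even r ∧ (Sel f).ncard = 2 ^ r}.ncard : ℝ) / Z.ncard - 1 / 2| ≤ ε ∧
  (0.2097 - ε) * Z.ncard ≤ {f | f ∈ Z ∧ (Sel f).ncard = 1}.ncard

open Classical in
/-- Genus one: if the 2-Selmer group is finite, then the group of points is finitely generated and its
rank is at most the 2-Selmer rank. -/
def MW (f : K[X]) : Prop :=
  (Sel f).Finite → AddGroup.FG (Pts f) ∧ 2 ^ Module.finrank ℤ (Pts f) ≤ (Sel f).ncard

open Classical in
/-- Genus one: the group of points is finite for 20.97 per cent of the elements of `Z`, and its rank is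
at most one for 62.91 per cent, up to `ε`. -/
def RankZ (ε : ℝ) (Z : Set K[X]) : Prop :=
  (∀ f ∈ Z, MW f) ∧
  (0.2097 - ε) * Z.ncard ≤ {f | f ∈ Z ∧ Finite (Pts f)}.ncard ∧
  (0.6291 - ε) * Z.ncard ≤
    {f | f ∈ Z ∧ AddGroup.FG (Pts f) ∧ Module.finrank ℤ (Pts f) ≤ 1}.ncard

end Selmer

/-! ### The families -/

section Family

variable {K : Type} [Field K]

/-- The ring of the elements of `K` which are regular at all places different from `v` (it contains the
constants, as a finite field has no nontrivial valuation ring). -/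
def Reg (v : ValuationSubring K) : Subring K where
  carrier := {a | ∀ w : ValuationSubring K, w ≠ v → a ∈ w}
  zero_mem' := fun w _ => w.zero_mem
  one_mem' := fun w _ => w.one_mem
  add_mem' := fun ha hb w hw => w.add_mem _ _ (ha w hw) (hb w hw)
  mul_mem' := fun ha hb w hw => w.mul_mem _ _ (ha w hw) (hb w hw)
  neg_mem' := fun ha w hw => w.neg_mem _ (ha w hw)

/-- A uniformizer at `v`. -/
def Unif (v : ValuationSubring K) (π : K) : Prop :=
  π ≠ 0 ∧ π ∈ v ∧ π⁻¹ ∉ v ∧ ∀ z : K, z ∈ v → z⁻¹ ∉ v → z / π ∈ v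

/-- The element `a` of `K` is regular outside the place `v` and has there a pole of order at most
`m`. -/
def PoleV (v : ValuationSubring K) (m : ℕ) (a : K) : Prop :=
  (∀ w : ValuationSubring K, w ≠ v → a ∈ w) ∧ ∀ π : K, π ∈ v → π⁻¹ ∉ v → a * π ^ m ∈ v

/-- All curves of genus `g` and height at most `h`: the separable monic polynomials
`x^(2g+1) + a_1 x^(2g) + ... + a_(2g+1)` over `K` such that `a_i` is regular outside the place `v` and
has there a pole of order at most `i h`. -/
def HypV (v : ValuationSubring K) (g h : ℕ) : Set K[X] :=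
  {f | f.Monic ∧ f.natDegree = 2 * g + 1 ∧
    (∀ i ≤ 2 * g + 1, PoleV v (i * h) (f.coeff (2 * g + 1 - i))) ∧ f.Separable}

variable {v : ValuationSubring K}

/-- The places different from `v`. -/
abbrev Pl (v : ValuationSubring K) : Type := HeightOneSpectrum (Reg v)

/-- The number of elements of the residue field of `P`. -/
noncomputable def Nm (P : Pl v) : ℕ := Nat.card (Reg v ⧸ P.asIdeal)

/-- `p` is zero modulo the ideal `I`. -/
def Zer (I : Ideal (Reg v)) (p : (Reg v)[X]) : Prop := ∀ i, p.coeff i ∈ I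

/-- `p` modulo the ideal `I`. -/
noncomputable abbrev md (I : Ideal (Reg v)) (p : (Reg v)[X]) : (Reg v ⧸ I)[X] :=
  p.map (Ideal.Quotient.mk I)

/-- `p` is monic of degree `n` and irreducible modulo `P`. -/
def OkP (n : ℕ) (P : Ideal (Reg v)) (p : (Reg v)[X]) : Prop :=
  p.Monic ∧ p.natDegree = n ∧ Irreducible (md P p)

/-- The scheme `f(x) = 0` over `Reg v` has a singular point above `P`: for a polynomial `γ` which is
irreducible modulo `P`, `f` is in the square of the ideal generated by `P` and `γ`. -/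
def Sing (P : Ideal (Reg v)) (f : (Reg v)[X]) : Prop :=
  ∃ γ a b c : (Reg v)[X], γ.Monic ∧ Irreducible (md P γ) ∧ Zer P b ∧ Zer (P ^ 2) c ∧
    f = γ ^ 2 * a + γ * b + c

/-- The scheme `f(x) = 0` is regular. -/
def Smooth (f : (Reg v)[X]) : Prop := ∀ P : Pl v, ¬ Sing P.asIdeal f

/-- Local data: finite sets `T` and `T'` of places different from `v`, and for every place of
`T ∪ T' ∪ {v}` the reduction of a polynomial. -/
structure Data (v : ValuationSubring K) where
  /-- the places where `f` is linear times irreducible -/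
  T : Finset (Pl v)
  /-- the places where `f` is irreducible -/
  T' : Finset (Pl v)
  /-- the roots -/
  c : Pl v → Reg v
  /-- the factors of degree `2 g` -/
  γ : Pl v → (Reg v)[X]
  /-- the irreducible polynomials at the places of `T'` -/
  ρ : Pl v → (Reg v)[X]
  /-- the irreducible polynomial at `v` -/
  top : (IsLocalRing.ResidueField v)[X]

/-- The conditions on the data: `T` and `T'` are disjoint, `γ` is irreducible of degree `2 g`
modulo the places of `T`, `ρ` is irreducible of degree `2 g + 1` modulo the places of `T'`, `top` is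
irreducible of degree `2 g + 1`. -/
def Data.Ok (D : Data v) (g : ℕ) : Prop :=
  Disjoint D.T D.T' ∧ (∀ P ∈ D.T, OkP (2 * g) P.asIdeal (D.γ P)) ∧
    (∀ P ∈ D.T', OkP (2 * g + 1) P.asIdeal (D.ρ P)) ∧
    D.top.Monic ∧ D.top.natDegree = 2 * g + 1 ∧ Irreducible D.top

/-- The data have trace zero. -/
def Data.Tr0 (D : Data v) (g : ℕ) : Prop :=
  (∀ P ∈ D.T, ((X - C (D.c P)) * D.γ P).coeff (2 * g) ∈ P.asIdeal) ∧
    (∀ P ∈ D.T', (D.ρ P).coeff (2 * g) ∈ P.asIdeal) ∧ D.top.coeff (2 * g) = 0

/-- The polynomials `f = x^(2g+1) + a_1 x^(2g) + ... + a_(2g+1)` over `Reg v` of height `h`: `a_i` has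
at `v` a pole of order at most `i h`, and the residues of the `a_i π^(i h)` are the coefficients of
`p`.  Here `π` is a uniformizer at `v`. -/
def Top (π : K) (g h : ℕ) (p : (IsLocalRing.ResidueField v)[X]) (f : (Reg v)[X]) : Prop :=
  (f.Monic ∧ f.natDegree = 2 * g + 1 ∧
    ∀ i ≤ 2 * g + 1, (f.coeff (2 * g + 1 - i) : K) * π ^ (i * h) ∈ v) ∧
  ∀ i ≤ 2 * g + 1, ∀ z : v, (z : K) = (f.coeff (2 * g + 1 - i) : K) * π ^ (i * h) →
    IsLocalRing.residue v z = p.coeff (2 * g + 1 - i)

/-- The family: all polynomials `f` of height `h` which are smooth and congruent to the data: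
to `(x - c P) γ P` at the places of `T`, to `ρ P` at the places of `T'`, and to `top` at `v`. -/
def Fam (π : K) (g : ℕ) (D : Data v) (h : ℕ) : Set (Reg v)[X] :=
  {f | (Top π g h D.top f ∧ (∀ P ∈ D.T, Zer P.asIdeal (f - (X - C (D.c P)) * D.γ P)) ∧
    ∀ P ∈ D.T', Zer P.asIdeal (f - D.ρ P)) ∧ Smooth f}

/-- The elements `d P`, `P ∈ T`, may be used for the twists: `d P` has order one at `P` and order zero
at all other places outside `T' ∪ {v}`. -/
def Tws (D : Data v) (d : Pl v → Reg v) : Prop :=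
  ∀ P ∈ D.T, d P ≠ 0 ∧ (d P ∈ P.asIdeal ∧ d P ∉ P.asIdeal ^ 2) ∧
    ∀ Q : Pl v, Q ≠ P → Q ∉ D.T' → d P ∉ Q.asIdeal

/-- The product of the `d P`, `P ∈ S`. -/
noncomputable def pr (d : Pl v → Reg v) (S : Finset (Pl v)) : Reg v := ∏ P ∈ S, d P

/-- The twist by `d` of the curve `y² = f(x)`, the curve `d y² = f(x)`, as a polynomial over `K`: the
coefficient `a_i` is multiplied by `d^i`. -/
noncomputable def tw (d : Reg v) (f : (Reg v)[X]) : K[X] :=
  (f.scaleRoots d).map (Reg v).subtype

open Classical in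
/-- The sets of `j` or `j + 1` elements of `T`, where `#T = 2 j + 1`. -/
noncomputable def Sl (T : Finset (Pl v)) : Finset (Finset (Pl v)) :=
  T.powerset.filter fun S => S.card = T.card / 2 ∨ S.card = T.card / 2 + 1

/-- The set of the twists of the elements of `A` by the `pr d S`, `S ∈ Sl T`. -/
def Tw (D : Data v) (d : Pl v → Reg v) (A : Set (Reg v)[X]) : Set K[X] :=
  {q | ∃ f ∈ A, ∃ S ∈ Sl D.T, q = tw (pr d S) f}

/-- The law for the twists of the single polynomial `f`: the Selmer groups have `2^r` elements, `r` is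
even for exactly one half of the twists, and the distribution of `r` is the law of Poonen and Rains
up to `ε`. -/
def LawT (ε : ℝ) (D : Data v) (d : Pl v → Reg v) (f : (Reg v)[X]) : Prop :=
  (∀ S ∈ Sl D.T, (Sel (tw (pr d S) f)).Finite ∧
    ∃ r : ℕ, (Sel (tw (pr d S) f)).ncard = 2 ^ r) ∧
  2 * {S | S ∈ Sl D.T ∧ ∃ r : ℕ, Even r ∧ (Sel (tw (pr d S) f)).ncard = 2 ^ r}.ncard =
    (Sl D.T).card ∧
  ∀ B : ℕ, ∑ r ∈ Finset.range B,
    |({S | S ∈ Sl D.T ∧ (Sel (tw (pr d S) f)).ncard = 2 ^ r}.ncard : ℝ) / (Sl D.T).card -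
      PR r| ≤ ε

/-- The set `Z` has density at least `c` in the finite, nonempty set `H`. -/
def Pos (c : ℝ) (Z H : Set K[X]) : Prop := Z ⊆ H ∧ H.Finite ∧ 0 < H.ncard ∧ c * H.ncard ≤ Z.ncard

/-- The set `Z` has density at least `c` in `H`, and the law holds for `Z`. -/
def PosL (g : ℕ) (ε c : ℝ) (Z H : Set K[X]) : Prop :=
  Pos c Z H ∧ LawZ ε Z ∧ (g = 1 → RankZ ε Z)

/-- The law for the families given by the data `D`, for all large heights. -/
def Law (π : K) (g : ℕ) (ε : ℝ) (D : Data v) (d : Pl v → Reg v) (E : ℕ) : Prop :=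
  ∃ c : ℝ, 0 < c ∧ ∃ h₀ : ℕ, ∀ h : ℕ, h₀ ≤ h →
    PosL g ε c (Tw D d (Fam π g D h)) (HypV v g (h + E)) ∧
    ({f | f ∈ Fam π g D h ∧ ¬ LawT ε D d f}.ncard : ℝ) ≤ ε * (Fam π g D h).ncard ∧
    (((2 * g + 1 : ℕ) : K) ≠ 0 → D.Tr0 g →
      PosL g ε c (Tw D d {f | f ∈ Fam π g D h ∧ f.coeff (2 * g) = 0})
        {f | f ∈ HypV v g (h + E) ∧ f.coeff (2 * g) = 0})

end Family

/-! ### Many twists of one curve -/

section Multi

variable {K : Type} [Field K] {v : ValuationSubring K}

/-- The completion `L` of `K`, with the valuation ring `O`, is the completion at the place `P`. -/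
def At (P : Pl v) {L : Type} [Field L] (O : ValuationSubring L) (ι : K →+* L) : Prop :=
  ∀ a : Reg v, ι (a : K) ∈ O ∧ (a ∈ P.asIdeal ↔ O.valuation (ι (a : K)) < 1)

/-- The 2-Selmer group has exactly two elements, and the nontrivial one, the class of `p`, is not
trivial over the completion of `K` at `P`. -/
def SelTwo (P : Pl v) (f : K[X]) : Prop :=
  (Sel f).ncard = 2 ∧ ∀ (u : (AdjoinRoot f)ˣ) (p : K[X]),
    (QuotientGroup.mk u : (AdjoinRoot f)ˣ ⧸ Sq f) ∈ Sel f →
    AdjoinRoot.mk f p = (u : AdjoinRoot f) → (¬ ∃ s, f ∣ p - s ^ 2) →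
    ∃ (L : Type) (_ : Field L) (O : ValuationSubring L) (ι : K →+* L), Cpl K L O ι ∧ At P O ι ∧
      ¬ ∃ s : L[X], f.map ι ∣ p.map ι - s ^ 2

/-- The element `t` of `K` has order zero at the place `P`. -/
def OrdZ (P : Pl v) (t : K) : Prop :=
  ∃ x y : Reg v, x ∉ P.asIdeal ∧ y ∉ P.asIdeal ∧ t * (y : K) = (x : K)

/-- There are `m + 1` elements `t i` of `K`, independent modulo squares, such that for each of the
`2^(m+1)` products `t_I` of some of them the 2-Selmer group of the twist of `f` by `t_I` is trivial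
if `t 0` is a factor of the product, and has exactly two elements if not; the nontrivial one is then
not trivial over the completion of `K` at `P`.  The `t i` have order zero at all places outside
`T ∪ T' ∪ {v}`, and also at `P` if `i ≠ 0`. -/
def Rich (m : ℕ) (D : Data v) (P : Pl v) (f : K[X]) : Prop :=
  ∃ t : Fin (m + 1) → K, (∀ i, t i ≠ 0) ∧
    (∀ i, ∀ Q : Pl v, Q ∉ D.T → Q ∉ D.T' → OrdZ Q (t i)) ∧ (∀ i, i ≠ 0 → OrdZ P (t i)) ∧
    (∀ I : Finset (Fin (m + 1)), I.Nonempty → ¬ IsSquare (∏ i ∈ I, t i)) ∧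
    ∀ I : Finset (Fin (m + 1)),
      (0 ∈ I → (Sel (f.scaleRoots (∏ i ∈ I, t i))).ncard = 1) ∧
      (0 ∉ I → SelTwo P (f.scaleRoots (∏ i ∈ I, t i)))

open Classical in
/-- The set of the twists of the elements of `A` by the `pr d (insert P S)`, `S` a set of `j` or
`j + 1` elements of `T` different from `P`, where `T` has `2 j + 2` elements. -/
def TwI (D : Data v) (P : Pl v) (d : Pl v → Reg v) (A : Set (Reg v)[X]) : Set K[X] :=
  {q | ∃ f ∈ A, ∃ S ∈ Sl (D.T.erase P), q = tw (pr d (insert P S)) f}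

/-- The set `Z` has density at least `c` in `H`, and `Rich` holds for a proportion of at least
`0.2097 - ε` of its elements.  For `g = 1` the rank of every twist is at most the 2-Selmer rank, if
the latter is finite. -/
def PosI (m g : ℕ) (D : Data v) (P : Pl v) (ε c : ℝ) (Z H : Set K[X]) : Prop :=
  Pos c Z H ∧ (0.2097 - ε) * Z.ncard ≤ {f | f ∈ Z ∧ Rich m D P f}.ncard ∧
    (g = 1 → ∀ f ∈ Z, ∀ t : K, t ≠ 0 → MW (f.scaleRoots t))

/-- Many twists, for the families given by the data `D`, for all large heights. -/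
def Multi (m : ℕ) (π : K) (g : ℕ) (ε : ℝ) (D : Data v) (P : Pl v) (d : Pl v → Reg v)
    (E : ℕ) : Prop :=
  ∃ c : ℝ, 0 < c ∧ ∃ h₀ : ℕ, ∀ h : ℕ, h₀ ≤ h →
    PosI m g D P ε c (TwI D P d (Fam π g D h)) (HypV v g (h + E)) ∧
    (((2 * g + 1 : ℕ) : K) ≠ 0 → D.Tr0 g →
      PosI m g D P ε c (TwI D P d {f | f ∈ Fam π g D h ∧ f.coeff (2 * g) = 0})
        {f | f ∈ HypV v g (h + E) ∧ f.coeff (2 * g) = 0})

end Multi

/-- The main statement for the place `v`, the uniformizer `π` and the genus `g`, where `K` is a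
function field in one variable over a finite field of odd order.  There is a finite set `A` of
places such that the following holds if `T'` contains `A`, the number `k` of the elements of `T` is
large (in terms of `T'`, `m` and `ε`) and the norms of the elements of `T` are large; data, also of
trace zero, and twisting elements exist.  If `k` is odd, the law holds for the twists of the family
`Fam`.  If `k` is even and `P ∈ T`, then `Rich m D P` holds for at least `0.2097 - ε` of the twists of
this family. -/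
def Main {K : Type} [Field K] (v : ValuationSubring K) (π : K) (g : ℕ) : Prop :=
  ∃ A : Finset (Pl v), ∀ T' : Finset (Pl v), A ⊆ T' →
    ∀ (m : ℕ) (ε : ℝ), 0 < ε → ∃ k₀ : ℕ, ∀ k : ℕ, k₀ ≤ k → ∃ b : ℕ,
    (∃ D : Data v, D.Ok g ∧ D.T' = T' ∧ D.T.card = k ∧ (∀ P ∈ D.T, b < Nm P) ∧
      (((2 * g + 1 : ℕ) : K) ≠ 0 → D.Tr0 g)) ∧
    ∀ D : Data v, D.Ok g → D.T' = T' → D.T.card = k → (∀ P ∈ D.T, b < Nm P) →
    (∃ (d : Pl v → Reg v) (E : ℕ), Tws D d ∧ ∀ S ⊆ D.T, (pr d S : K) * π ^ E ∈ v) ∧
    ∀ (d : Pl v → Reg v) (E : ℕ), Tws D d → (∀ S ⊆ D.T, (pr d S : K) * π ^ E ∈ v) →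
      (Odd k → Law π g ε D d E) ∧ (Even k → ∀ P ∈ D.T, Multi m π g ε D P d E)

end Pool.PRM
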