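import Pool.Agent.H79.PRM.Bridge
import Pool.Agent.H25.PRL.IDN

/-!
# PRM: the genus one clause
-/

set_option autoImplicit false

namespace Pool.PRM

open Polynomial IsDedekindDomain

variable {K : Type} [Field K]

open Classical in
theorem fin_of_rank {f : K[X]} (h1 : AddGroup.FG (Pts f)) (h2 : Module.finrank ℤ (Pts f) = 0) :
    Finite (Pts f) := by
  have : Module.Finite ℤ (Pts f) := Module.Finite.iff_addGroup_fg.2 h1
  have ht : Module.IsTorsion ℤ (Pts f) := Module.finrank_eq_zero_iff_isTorsion.1 h2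
  exact Module.finite_of_fg_torsion (Pts f) ht

theorem fin_of_ncard {f : K[X]} {k : ℕ} (hk : 0 < k) (h : (Sel f).ncard = k) :
    (Sel f).Finite := Set.finite_of_ncard_pos (by omega)

open Classical in
/-- The clause for genus one, from the law. -/
theorem rankZ {ε : ℝ} {Z : Set K[X]} (hMW : ∀ f ∈ Z, MW f) (hL : LawZ ε Z) (hZ : Z.Finite) :
    RankZ ε Z := by
  obtain ⟨hsum, -, h1⟩ := hL
  have hPR0 : (0.2097 : ℝ) < PR 0 := PRL.idn.2.2.2.2.1
  have hPR1 : PR 1 = 2 * PR 0 := PRL.idn.2.2.2.2.2.2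
  refine ⟨hMW, h1.trans ?_, ?_⟩
  · have h6 : {f | f ∈ Z ∧ (Sel f).ncard = 1}.ncard ≤ {f | f ∈ Z ∧ Finite (Pts f)}.ncard := by
      refine Set.ncard_le_ncard ?_ (hZ.subset fun f hf => hf.1)
      rintro f ⟨hf, hs⟩
      obtain ⟨h2, h3⟩ := hMW f hf (fin_of_ncard one_pos hs)
      rw [hs] at h3
      refine ⟨hf, fin_of_rank h2 ?_⟩
      by_contra hne
      have : 2 ^ 1 ≤ 2 ^ Module.finrank ℤ (Pts f) :=
        Nat.pow_le_pow_right (by norm_num) (Nat.one_le_iff_ne_zero.2 hne)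
      omega
    exact_mod_cast h6
  · rcases Set.eq_empty_or_nonempty Z with hZe | hZn
    · subst hZe
      simp
    have hZ0 : (0 : ℝ) < Z.ncard := by
      exact_mod_cast (Set.ncard_pos hZ).2 hZn
    have h3 := hsum 2
    rw [Finset.sum_range_succ, Finset.sum_range_one, pow_zero, pow_one] at h3
    have h4 := abs_le.1 (le_refl |({f | f ∈ Z ∧ (Sel f).ncard = 1}.ncard : ℝ) /
      Z.ncard - PR 0|)
    have h5 := abs_le.1 (le_refl |({f | f ∈ Z ∧ (Sel f).ncard = 2}.ncard : ℝ) /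
      Z.ncard - PR 1|)
    have h6 : (0.6291 - ε) ≤ (({f | f ∈ Z ∧ (Sel f).ncard = 1}.ncard : ℝ) +
        ({f | f ∈ Z ∧ (Sel f).ncard = 2}.ncard : ℝ)) / Z.ncard := by
      rw [add_div]
      linarith [h4.1, h5.1]
    rw [le_div_iff₀ hZ0] at h6
    refine h6.trans ?_
    have h7 : Disjoint {f | f ∈ Z ∧ (Sel f).ncard = 1} {f | f ∈ Z ∧ (Sel f).ncard = 2} := by
      rw [Set.disjoint_left]
      rintro f ⟨_, h8⟩ ⟨_, h9⟩
      omega
    have h8 := Set.ncard_union_eq h7 (hZ.subset fun f hf => hf.1) (hZ.subset fun f hf => hf.1)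
    have h9 : ({f | f ∈ Z ∧ (Sel f).ncard = 1} ∪ {f | f ∈ Z ∧ (Sel f).ncard = 2}).ncard ≤
        {f | f ∈ Z ∧ AddGroup.FG (Pts f) ∧ Module.finrank ℤ (Pts f) ≤ 1}.ncard := by
      refine Set.ncard_le_ncard ?_ (hZ.subset fun f hf => hf.1)
      have key : ∀ f ∈ Z, ∀ k : ℕ, 0 < k → k ≤ 2 → (Sel f).ncard = k →
          AddGroup.FG (Pts f) ∧ Module.finrank ℤ (Pts f) ≤ 1 := by
        intro f hf k hk hk2 hs
        obtain ⟨h10, h11⟩ := hMW f hf (fin_of_ncard hk hs)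
        refine ⟨h10, ?_⟩
        by_contra hne
        have : 2 ^ 2 ≤ 2 ^ Module.finrank ℤ (Pts f) :=
          Nat.pow_le_pow_right (by norm_num) (by omega)
        omega
      rintro f (hf | hf)
      · exact ⟨hf.1, key f hf.1 1 one_pos (by norm_num) hf.2⟩
      · exact ⟨hf.1, key f hf.1 2 two_pos le_rfl hf.2⟩
    rw [h8] at h9
    exact_mod_cast h9

end Pool.PRM
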